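import Mathlib

/-! The greedy random walk on the ladder is recurrent. -/

open Finset MeasureTheory Filter Topology

namespace Pool.Agent.Results.MP_1d885b_pr.Yes

/-- vertices of the ladder -/
abbrev V : Type := ℤ × Bool

/-- the three neighbours of a vertex of the ladder -/
def nbrs (v : V) : Finset V := {(v.1 + 1, v.2), (v.1 - 1, v.2), (v.1, !v.2)}

/-- edges traversed up to time `t` along the path `x` -/
def used (x : ℕ → V) (t : ℕ) : Finset (Sym2 V) := (range t).image fun s => s(x s, x (s + 1))

/-- neighbours of `v` joined to `v` by an edge not in `H` -/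
def free (H : Finset (Sym2 V)) (v : V) : Finset V := (nbrs v).filter fun w => s(v, w) ∉ H

/-- probability of the step from `v` to `w` when the edges in `H` have been visited -/
noncomputable def step (H : Finset (Sym2 V)) (v w : V) : ℝ :=
  if (free H v).Nonempty then (if w ∈ free H v then 1 / (free H v).card else 0)
  else if w ∈ nbrs v then 1 / 3 else 0

/-- the process follows `x` up to time `t` -/
def cyl {Ω : Type} (X : ℕ → Ω → V) (x : ℕ → V) (t : ℕ) : Set Ω := {ω | ∀ i ≤ t, X i ω = x i}

/-- `X` is a greedy random walk on the ladder started at `(0, false)` -/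
def IsGRW {Ω : Type} [MeasurableSpace Ω] (P : Measure Ω) (X : ℕ → Ω → V) : Prop :=
  (∀ t, Measurable (X t)) ∧ (∀ᵐ ω ∂P, X 0 ω = (0, false)) ∧ ∀ (x : ℕ → V) (t : ℕ),
    P (cyl X x (t + 1)) = P (cyl X x t) * ENNReal.ofReal (step (used x t) (x t) (x (t + 1)))

/-- paths of positive probability -/
def Valid (x : ℕ → V) (t : ℕ) : Prop := x 0 = (0, false) ∧ ∀ s < t, step (used x s) (x s) (x (s + 1)) ≠ 0

lemma step_nonneg (H : Finset (Sym2 V)) (v w : V) : 0 ≤ step H v w := by
  simp only [step]; split_ifs <;> positivity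

lemma step_mem {H : Finset (Sym2 V)} {v w : V} (h : step H v w ≠ 0) :
    w ∈ nbrs v ∧ ((free H v).Nonempty → w ∈ free H v) := by
  simp only [step] at h
  split_ifs at h with h1 h2 h3
  · exact ⟨(mem_filter.1 h2).1, fun _ => h2⟩
  · simp at h
  · exact ⟨h3, fun h => (h1 h).elim⟩
  · simp at h

lemma used_congr {x y : ℕ → V} {t : ℕ} (h : ∀ i ≤ t, x i = y i) : used x t = used y t :=
  image_congr fun s hs => by
    have := mem_range.1 hs
    simp only [h s (by omega), h (s + 1) (by omega)]

lemma used_succ (x : ℕ → V) (t : ℕ) : used x (t + 1) = insert s(x t, x (t + 1)) (used x t) := by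
  simp [used, range_add_one]

lemma Valid.congr {x y : ℕ → V} {t : ℕ} (h : ∀ i ≤ t, x i = y i) (hx : Valid x t) : Valid y t :=
  ⟨h 0 (by omega) ▸ hx.1, fun s hs => by
    rw [← used_congr fun i hi => h i (by omega), ← h s (by omega), ← h (s + 1) (by omega)]; exact hx.2 s hs⟩

section prob
variable {Ω : Type} [MeasurableSpace Ω] {P : Measure Ω} {X : ℕ → Ω → V}

lemma lint {A : Type} [Countable A] [MeasurableSpace A] [MeasurableSingletonClass A] {π : Ω → A}
    (hπ : Measurable π) (Φ : A → ENNReal) : ∫⁻ ω, Φ (π ω) ∂P = ∑' a, Φ a * P (π ⁻¹' {a}) := by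
  rw [← lintegral_map (measurable_of_countable Φ) hπ, lintegral_countable']
  simp only [Measure.map_apply hπ (measurableSet_singleton _)]

lemma invalid_null (hX : IsGRW P X) (x : ℕ → V) (t : ℕ) (h : ¬Valid x t) : P (cyl X x t) = 0 := by
  induction t with
  | zero =>
    refine measure_mono_null (t := {ω | ¬X 0 ω = (0, false)}) (fun ω hω h0 => h ⟨?_, by simp⟩) (ae_iff.1 hX.2.1)
    rw [← hω 0 le_rfl]; exact h0
  | succ t ih =>
    rw [hX.2.2]
    by_cases hv : Valid x t
    · have : step (used x t) (x t) (x (t + 1)) = 0 := by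
        by_contra hc
        refine h ⟨hv.1, fun s hs => ?_⟩
        rcases (Nat.lt_succ_iff.1 hs).eq_or_lt with rfl | h'
        · exact hc
        · exact hv.2 s h'
      simp [this]
    · simp [ih hv]

/-- extension of a finite history -/
def ext {t : ℕ} (h : Fin (t + 1) → V) (w : V) : ℕ → V := fun i => if hi : i < t + 1 then h ⟨i, hi⟩ else w

lemma ext_le {t : ℕ} (x : ℕ → V) (w : V) {i : ℕ} (hi : i ≤ t) : ext (fun j : Fin (t + 1) => x j) w i = x i := by
  simp only [ext, dif_pos (Nat.lt_succ_of_le hi)]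

lemma pre1 (t : ℕ) (h : Fin (t + 1) → V) (w : V) :
    (fun ω (i : Fin (t + 1)) => X i ω) ⁻¹' {h} = cyl X (ext h w) t := by
  ext ω
  simp only [Set.mem_preimage, Set.mem_singleton_iff, cyl, Set.mem_setOf_eq]
  constructor
  · rintro rfl i hi; exact (ext_le (fun i => X i ω) w hi).symm
  · intro hω; funext i
    have := hω i (by omega); simpa only [ext, i.2, dif_pos] using this

lemma pre2 (t : ℕ) (h : Fin (t + 1) → V) (w : V) :
    (fun ω => (fun i : Fin (t + 1) => X i ω, X (t + 1) ω)) ⁻¹' {(h, w)} = cyl X (ext h w) (t + 1) := by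
  ext ω
  have := Set.ext_iff.1 (pre1 (X := X) t h w) ω
  simp only [Set.mem_preimage, Set.mem_singleton_iff, cyl, Set.mem_setOf_eq, Prod.mk.injEq] at this ⊢
  rw [this]
  constructor
  · rintro ⟨h1, h2⟩ i hi
    rcases hi.eq_or_lt with rfl | h'
    · simp [ext, h2]
    · exact h1 i (by omega)
  · exact fun h1 => ⟨fun i hi => h1 i (by omega), by simpa [ext] using h1 (t + 1) le_rfl⟩

lemma ae_valid (hX : IsGRW P X) : ∀ᵐ ω ∂P, ∀ t, Valid (fun i => X i ω) t := by
  refine ae_all_iff.2 fun t => ?_
  refine measure_mono_null (t := ⋃ h : {h : Fin (t + 1) → V // ¬Valid (ext h (0, false)) t},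
    cyl X (ext h.1 (0, false)) t) (fun ω hω => Set.mem_iUnion.2 ⟨⟨fun i => X i ω, fun hv => hω
      (hv.congr fun i hi => ext_le (fun i => X i ω) _ hi)⟩, fun i hi => (ext_le (fun i => X i ω) _ hi).symm⟩)
    (measure_iUnion_null fun h => invalid_null hX _ _ h.2)

lemma fatou [IsProbabilityMeasure P] (hX : IsGRW P X) (f : ℕ → (ℕ → V) → ℝ) (s : ℕ) (C : ℝ)
    (h0 : ∀ t x, 0 ≤ f t x) (had : ∀ t x y, (∀ i ≤ t, x i = y i) → f t x = f t y) (hC : ∀ x, f s x ≤ C)
    (hs : ∀ t, s ≤ t → ∀ (x : ℕ → V) (y : V → ℕ → V), Valid x t → (∀ w, ∀ i ≤ t, y w i = x i) →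
      (∀ w, y w (t + 1) = w) → ∑ w ∈ nbrs (x t), step (used x t) (x t) w * f (t + 1) (y w) ≤ f t x) :
    ∀ᵐ ω ∂P, ¬Tendsto (fun t => f t fun i => X i ω) atTop atTop := by
  have hπ : ∀ t, Measurable fun ω (i : Fin (t + 1)) => X i ω := fun t => measurable_pi_lambda _ fun i => hX.1 i
  have e1 : ∀ t ω, f t (fun i => X i ω) = f t (ext (fun i : Fin (t + 1) => X i ω) (0, false)) := fun t ω =>
    had _ _ _ fun i hi => (ext_le (fun i => X i ω) _ hi).symm
  have h1 : ∀ t, s ≤ t → ∫⁻ ω, ENNReal.ofReal (f (t + 1) fun i => X i ω) ∂P ≤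
      ∫⁻ ω, ENNReal.ofReal (f t fun i => X i ω) ∂P := by
    intro t ht
    have e2 : ∀ ω, f (t + 1) (fun i => X i ω) = f (t + 1) (ext (fun i : Fin (t + 1) => X i ω) (X (t + 1) ω)) :=
      fun ω => had _ _ _ fun i hi => by
        rcases hi.eq_or_lt with rfl | h'
        · simp [ext]
        · exact (ext_le (fun i => X i ω) _ (by omega)).symm
    simp only [e1 t, e2]
    rw [lint (hπ t) (fun h => ENNReal.ofReal (f t (ext h (0, false)))), lint ((hπ t).prodMk (hX.1 (t + 1)))
      (fun p => ENNReal.ofReal (f (t + 1) (ext p.1 p.2))), ENNReal.tsum_prod']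
    refine ENNReal.tsum_le_tsum fun h => ?_
    have h2 : ∀ w, ∀ i ≤ t, ext h w i = ext h (0, false) i := fun w i hi => by
      simp only [ext, dif_pos (Nat.lt_succ_of_le hi)]
    have h3 : ∀ w, ext h w (t + 1) = w := fun w => by simp [ext]
    simp only [pre2, hX.2.2, ← pre1, used_congr (h2 _), h2 _ t le_rfl, h3]
    by_cases hv : Valid (ext h (0, false)) t
    · simp only [mul_left_comm _ (P _), ENNReal.tsum_mul_left]
      rw [mul_comm]
      refine mul_le_mul_left ?_ _
      rw [tsum_eq_sum (s := nbrs (ext h (0, false) t)) fun w hw => by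
        rw [of_not_not fun hc => hw (step_mem hc).1]; simp]
      refine le_trans (le_of_eq ?_) (ENNReal.ofReal_le_ofReal (hs t ht _ _ hv h2 h3))
      rw [ENNReal.ofReal_sum_of_nonneg fun w _ => mul_nonneg (step_nonneg _ _ _) (h0 _ _)]
      exact sum_congr rfl fun w _ => by rw [mul_comm, ENNReal.ofReal_mul (step_nonneg _ _ _)]
    · simp [pre1 t h (0, false), invalid_null hX _ _ hv]
  have h2 : ∀ t, s ≤ t → ∫⁻ ω, ENNReal.ofReal (f t fun i => X i ω) ∂P ≤ ENNReal.ofReal C := by
    intro t ht
    induction t, ht using Nat.le_induction with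
    | base => exact (lintegral_mono fun ω => ENNReal.ofReal_le_ofReal (hC _)).trans (by simp)
    | succ t ht ih => exact (h1 t ht).trans ih
  have hm : ∀ t, Measurable fun ω => ENNReal.ofReal (f t fun i => X i ω) := fun t => by
    simp only [e1 t]
    exact (measurable_of_countable fun h => ENNReal.ofReal (f t (ext h (0, false)))).comp (hπ t)
  have h3 := (lintegral_liminf_le (μ := P) hm).trans
    (liminf_le_of_frequently_le' ((eventually_ge_atTop s).mono h2).frequently)
  filter_upwards [ae_lt_top (Measurable.liminf hm) (h3.trans_lt ENNReal.ofReal_lt_top).ne] with ω hω hc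
  exact hω.ne (ENNReal.tendsto_ofReal_atTop.comp hc).liminf_eq

end prob

lemma avg (H : Finset (Sym2 V)) (a : ℤ) (i : Bool) (F : V → ℝ) :
    ∑ w ∈ nbrs (a, i), step H (a, i) w * F w =
      if s((a, i), (a + 1, i)) ∈ H then
        (if s((a, i), (a - 1, i)) ∈ H then
          (if s((a, i), (a, !i)) ∈ H then (F (a + 1, i) + F (a - 1, i) + F (a, !i)) / 3 else F (a, !i))
        else if s((a, i), (a, !i)) ∈ H then F (a - 1, i) else (F (a - 1, i) + F (a, !i)) / 2)
      else if s((a, i), (a - 1, i)) ∈ H then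
        (if s((a, i), (a, !i)) ∈ H then F (a + 1, i) else (F (a + 1, i) + F (a, !i)) / 2)
      else if s((a, i), (a, !i)) ∈ H then (F (a + 1, i) + F (a - 1, i)) / 2
      else (F (a + 1, i) + F (a - 1, i) + F (a, !i)) / 3 := by
  have n1 : ((a + 1, i) : V) ≠ (a - 1, i) := by simp; omega
  have n2 : ((a + 1, i) : V) ≠ (a, !i) := by simp
  have n3 : ((a - 1, i) : V) ≠ (a, !i) := by simp
  have hs : ∀ G : V → ℝ, ∑ w ∈ nbrs (a, i), G w = G (a + 1, i) + G (a - 1, i) + G (a, !i) := fun G => by
    simp only [nbrs]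
    rw [sum_insert (by simp [n1, n2]), sum_pair n3, add_assoc]
  have hc : ((free H (a, i)).card : ℝ) = ∑ w ∈ nbrs (a, i), if s((a, i), w) ∉ H then 1 else 0 := by
    rw [free, card_filter]; push_cast; rfl
  have hn : (free H (a, i)).Nonempty ↔ s((a, i), (a + 1, i)) ∉ H ∨ s((a, i), (a - 1, i)) ∉ H ∨
      s((a, i), (a, !i)) ∉ H := by
    simp [free, filter_nonempty_iff, nbrs]
  have m : ∀ w ∈ nbrs (a, i), w ∈ free H (a, i) ↔ s((a, i), w) ∉ H := fun w hw => by simp [free, hw]
  have m1 : ((a + 1, i) : V) ∈ nbrs (a, i) := by simp [nbrs]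
  have m2 : ((a - 1, i) : V) ∈ nbrs (a, i) := by simp [nbrs]
  have m3 : ((a, !i) : V) ∈ nbrs (a, i) := by simp [nbrs]
  rw [hs] at hc
  rw [hs]
  simp only [step, hc, hn, m _ m1, m _ m2, m _ m3, m1, m2, m3]
  by_cases h1 : s((a, i), (a + 1, i)) ∈ H <;> by_cases h2 : s((a, i), (a - 1, i)) ∈ H <;>
    by_cases h3 : s((a, i), (a, !i)) ∈ H <;> simp [h1, h2, h3] <;> ring

/-- horizontal edge visited -/
def hor (H : Finset (Sym2 V)) (n : ℤ) (i : Bool) : Prop := s((n, i), (n + 1, i)) ∈ H

/-- rung visited -/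
def rung (H : Finset (Sym2 V)) (n : ℤ) : Prop := s((n, false), (n, true)) ∈ H

lemma eL (H : Finset (Sym2 V)) (a : ℤ) (i : Bool) : s((a, i), (a - 1, i)) ∈ H ↔ hor H (a - 1) i := by
  rw [hor, Sym2.eq_swap, sub_add_cancel]

lemma eU (H : Finset (Sym2 V)) (a : ℤ) (i : Bool) : s((a, i), (a, !i)) ∈ H ↔ rung H a := by
  cases i
  · rfl
  · rw [rung, Sym2.eq_swap]; rfl

lemma horR (H : Finset (Sym2 V)) (a : ℤ) (i : Bool) (n : ℤ) (j : Bool) :
    hor (insert s((a, i), (a + 1, i)) H) n j ↔ hor H n j ∨ (n = a ∧ j = i) := by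
  simp only [hor, mem_insert, Sym2.eq_iff, Prod.mk.injEq]; grind
lemma horL (H : Finset (Sym2 V)) (a : ℤ) (i : Bool) (n : ℤ) (j : Bool) :
    hor (insert s((a, i), (a - 1, i)) H) n j ↔ hor H n j ∨ (n = a - 1 ∧ j = i) := by
  simp only [hor, mem_insert, Sym2.eq_iff, Prod.mk.injEq]; grind
lemma horU (H : Finset (Sym2 V)) (a : ℤ) (i : Bool) (n : ℤ) (j : Bool) :
    hor (insert s((a, i), (a, !i)) H) n j ↔ hor H n j := by
  simp only [hor, mem_insert, Sym2.eq_iff, Prod.mk.injEq]; grind
lemma rungR (H : Finset (Sym2 V)) (a : ℤ) (i : Bool) (n : ℤ) :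
    rung (insert s((a, i), (a + 1, i)) H) n ↔ rung H n := by
  simp only [rung, mem_insert, Sym2.eq_iff, Prod.mk.injEq]; grind
lemma rungL (H : Finset (Sym2 V)) (a : ℤ) (i : Bool) (n : ℤ) :
    rung (insert s((a, i), (a - 1, i)) H) n ↔ rung H n := by
  simp only [rung, mem_insert, Sym2.eq_iff, Prod.mk.injEq]; grind
lemma rungU (H : Finset (Sym2 V)) (a : ℤ) (i : Bool) (n : ℤ) :
    rung (insert s((a, i), (a, !i)) H) n ↔ rung H n ∨ n = a := by
  simp only [rung, mem_insert, Sym2.eq_iff, Prod.mk.injEq]; grind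

/-- invariant of reachable states -/
def Inv (H : Finset (Sym2 V)) (v : V) (r : ℕ) : Prop :=
  v.1 ≤ r ∧ (∀ n : ℤ, r ≤ n → ∀ i, ¬hor H n i) ∧ (∀ n : ℤ, r < n → ¬rung H n) ∧
  (∀ n : ℤ, 0 ≤ n → n < r → ∀ i, hor H n i ∨ hor H n (!i)) ∧
  (∀ n : ℤ, 1 ≤ n → ∀ i, (n, i) ≠ v → rung H n → ¬hor H (n - 1) i → hor H n i) ∧
  (1 ≤ v.1 → hor H (v.1 - 1) v.2 ∨ rung H v.1 ∨ hor H v.1 v.2)

lemma Inv.step {H : Finset (Sym2 V)} {v w : V} {r : ℕ} (h : Inv H v r) (hw : step H v w ≠ 0) :
    Inv (insert s(v, w) H) w (max r w.1.toNat) := by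
  obtain ⟨a, i⟩ := v
  obtain ⟨h1, h2⟩ := step_mem hw
  have h3 : (¬hor H a i ∨ ¬hor H (a - 1) i ∨ ¬rung H a) → s((a, i), w) ∉ H := fun h' => by
    refine (mem_filter.1 (h2 ?_)).2
    rw [← eL, ← eU H a i, hor] at h'
    simpa [free, filter_nonempty_iff, nbrs] using h'
  obtain ⟨i1, i2, i3, i4, i5, i6⟩ := h
  simp only [nbrs, mem_insert, mem_singleton] at h1
  rcases h1 with rfl | rfl | rfl
  · simp only [Inv, horR, rungR] at *
    refine ⟨by omega, by grind, by grind, fun n h0 hn j => ?_, by grind, by grind⟩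
    by_cases n < r
    · grind
    · have : n = a := by omega
      cases i <;> cases j <;> simp [this]
  · simp only [Inv, horL, rungL, eL] at *
    refine ⟨by omega, by grind, by grind, by grind, by grind, by grind⟩
  · simp only [Inv, horU, rungU, eU] at *
    refine ⟨by omega, by grind, by grind, by grind, fun n hn j => ?_, by grind⟩
    cases i <;> cases j <;> grind

/-- largest column reached -/
def rec (x : ℕ → V) : ℕ → ℕ
  | 0 => (x 0).1.toNat
  | t + 1 => max (rec x t) (x (t + 1)).1.toNat

lemma rec_congr {x y : ℕ → V} {t : ℕ} (h : ∀ i ≤ t, x i = y i) : rec x t = rec y t := by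
  induction t with
  | zero => simp [rec, h 0 le_rfl]
  | succ t ih => simp [rec, h (t + 1) le_rfl, ih fun i hi => h i (by omega)]

lemma le_rec (x : ℕ → V) (t : ℕ) : (x t).1 ≤ rec x t := by
  cases t <;> simp only [rec] <;> omega

lemma Valid.inv {x : ℕ → V} {t : ℕ} (h : Valid x t) : Inv (used x t) (x t) (rec x t) := by
  induction t with
  | zero => simp [Inv, used, hor, rung, rec, h.1]
  | succ t ih =>
    rw [used_succ]
    exact (ih ⟨h.1, fun s hs => h.2 s (by omega)⟩).step (h.2 t (by omega))

open Classical in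
/-- local correction -/
noncomputable def psi (H : Finset (Sym2 V)) (v : V) : ℝ :=
  if hor H (v.1 - 1) v.2 then (if ¬hor H (v.1 - 1) (!v.2) ∧ ¬rung H v.1 ∧ ¬hor H v.1 v.2 then 1 / 4 else 0)
  else if rung H v.1 then (if hor H v.1 v.2 then 1 else 1 / 2) else 0

open Classical in
/-- number of completed gaps to the right -/
noncomputable def cnt (H : Finset (Sym2 V)) (a : ℤ) (r : ℕ) : ℕ :=
  ((Ico a r).filter fun n => ∀ j, hor H n j).card

/-- slowly growing part -/
noncomputable def hh (r : ℕ) : ℝ := ∑ k ∈ range r, 1 / (4 * ((k : ℝ) + 2))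

/-- the nonnegative supermartingale -/
noncomputable def pot (H : Finset (Sym2 V)) (v : V) (r : ℕ) : ℝ := 1 + hh r - (cnt H v.1 r + psi H v) / (r + 1)

lemma psi_bd (H : Finset (Sym2 V)) (v : V) : 0 ≤ psi H v ∧ psi H v ≤ 1 := by
  simp only [psi]; split_ifs <;> norm_num

lemma pot_ge (H : Finset (Sym2 V)) {v : V} (hv : 0 ≤ v.1) (r : ℕ) : hh r ≤ pot H v r := by
  have h1 : cnt H v.1 r ≤ r := by
    classical
    refine (card_filter_le _ _).trans ?_
    rw [Int.card_Ico]; omega
  have h2 : (cnt H v.1 r : ℝ) ≤ r := by exact_mod_cast h1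
  have : (cnt H v.1 r + psi H v) / (r + 1) ≤ 1 := by
    rw [div_le_one (by positivity)]; linarith [(psi_bd H v).2]
  simp only [pot]; linarith

lemma hh_nonneg (r : ℕ) : 0 ≤ hh r := sum_nonneg fun k _ => by positivity

open Classical in
lemma cnt_succ (H : Finset (Sym2 V)) {a : ℤ} {r : ℕ} (h : a < r) :
    cnt H a r = cnt H (a + 1) r + if ∀ j, hor H a j then 1 else 0 := by
  have : Ico a (r : ℤ) = insert a (Ico (a + 1) r) := by ext n; simp; omega
  rw [cnt, this, filter_insert]
  split_ifs
  · rw [card_insert_of_notMem (by simp)]; rfl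
  · rfl

lemma cnt_congr {H H' : Finset (Sym2 V)} {a : ℤ} (r : ℕ) (h : ∀ n, a ≤ n → ∀ j, hor H n j ↔ hor H' n j) :
    cnt H a r = cnt H' a r := by
  classical
  exact congrArg card (filter_congr fun n hn => forall_congr' (h n (mem_Ico.1 hn).1))

lemma drift {H : Finset (Sym2 V)} {v : V} {r : ℕ} (h : Inv H v r) (hv : 1 ≤ v.1) :
    ∑ w ∈ nbrs v, step H v w * pot (insert s(v, w) H) w (max r w.1.toNat) ≤ pot H v r := by
  classical
  obtain ⟨a, i⟩ := v
  obtain ⟨i1, i2, i3, i4, i5, -⟩ := h
  simp only at hv i1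
  have hr : (0 : ℝ) < r + 1 := by positivity
  set c : ℝ := ((r : ℝ) + 1)⁻¹ with hc
  have hc0 : 0 < c := by positivity
  have hL : pot (insert s((a, i), (a - 1, i)) H) (a - 1, i) (max r (a - 1).toNat) ≤
      pot H (a, i) r + c * (psi H (a, i) - if hor H (a - 1) (!i) then 1 else 0) := by
    have e1 : max r (a - 1).toNat = r := by omega
    have e2 := cnt_succ (insert s((a, i), (a - 1, i)) H) (a := a - 1) (r := r) (by omega)
    rw [sub_add_cancel, cnt_congr (H' := H) (a := a) r (fun n hn j => by rw [horL]; exact or_iff_left fun h => by omega)] at e2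
    have e3 : (∀ j, hor (insert s((a, i), (a - 1, i)) H) (a - 1) j) ↔ hor H (a - 1) (!i) := by
      simp only [horL]; cases i <;> simp
    simp only [pot, e1, e2, e3, div_eq_mul_inv _ ((r : ℝ) + 1), ← hc]
    have := mul_nonneg (psi_bd (insert s((a, i), (a - 1, i)) H) (a - 1, i)).1 hc0.le
    push_cast; linarith
  have hR : pot (insert s((a, i), (a + 1, i)) H) (a + 1, i) (max r (a + 1).toNat) ≤
      pot H (a, i) r + c * (psi H (a, i) + if hor H a i ∧ hor H a (!i) then 1 else 0) := by
    rcases i1.eq_or_lt with e | e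
    · have e1 : max r (a + 1).toNat = r + 1 := by omega
      have e2 : psi (insert s((a, i), (a + 1, i)) H) (a + 1, i) = 1 / 4 := by
        have := i2 a e.ge (!i); have := i3 (a + 1) (by omega); have := i2 (a + 1) (by omega) i
        simp only [psi, horR, rungR, add_sub_cancel_right]
        rw [if_pos (by simp), if_pos (by cases i <;> simp_all)]
      have e3 : ∀ H' : Finset (Sym2 V), ∀ (b : ℤ) (m : ℕ), b = m → cnt H' b m = 0 := fun H' b m hb => by
        simp [cnt, hb]
      simp only [pot, e1, e2, e3 _ _ _ e, e3 _ (a + 1) (r + 1) (by omega), hh, sum_range_succ,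
        if_neg (fun h : hor H a i ∧ hor H a (!i) => i2 a e.ge i h.1), hc]
      push_cast
      apply le_of_eq
      field_simp; ring
    · have e1 : max r (a + 1).toNat = r := by omega
      have e2 := cnt_succ H e
      rw [cnt_congr (H' := insert s((a, i), (a + 1, i)) H) (a := a + 1) r (fun n hn j => by rw [horR]; exact (or_iff_left fun h => by omega).symm)] at e2
      have e3 : (∀ j, hor H a j) ↔ hor H a i ∧ hor H a (!i) := by cases i <;> simp [and_comm]
      simp only [pot, e1, e2, e3, div_eq_mul_inv _ ((r : ℝ) + 1), ← hc]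
      have := mul_nonneg (psi_bd (insert s((a, i), (a + 1, i)) H) (a + 1, i)).1 hc0.le
      push_cast; linarith
  have hU : pot (insert s((a, i), (a, !i)) H) (a, !i) (max r a.toNat) =
      pot H (a, i) r + c * (psi H (a, i) - if hor H (a - 1) (!i) then 0 else if hor H a (!i) then 1 else 1 / 2) := by
    have e1 : max r a.toNat = r := by omega
    have e2 : psi (insert s((a, i), (a, !i)) H) (a, !i) =
        if hor H (a - 1) (!i) then 0 else if hor H a (!i) then 1 else 1 / 2 := by
      simp [psi, horU, rungU]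
    simp only [pot, e1, e2, cnt_congr (H' := H) (a := a) r (fun n _ j => horU H a i n j),
      div_eq_mul_inv _ ((r : ℝ) + 1), ← hc]
    ring
  have j4 := i4 (a - 1) (by omega) (by omega) i
  have j5 := i5 a hv (!i) (by simp)
  have e0 : s((a, i), (a + 1, i)) ∈ H ↔ hor H a i := Iff.rfl
  rw [avg H a i fun w => pot (insert s((a, i), w) H) w (max r w.1.toNat)]
  simp only [e0, eL, eU, hU]
  simp only [psi] at hL hR ⊢
  by_cases h1 : hor H a i <;> by_cases h2 : hor H (a - 1) i <;> by_cases h3 : rung H a <;>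
    by_cases h4 : hor H (a - 1) (!i) <;> by_cases h5 : hor H a (!i) <;>
    simp only [h1, h2, h3, h4, h5, if_true, if_false, not_true, not_false_iff, and_true, and_false, true_and,
      false_and, or_self, forall_const, imp_false] at hL hR j4 j5 ⊢ <;> linarith

section final
variable {Ω : Type} [MeasurableSpace Ω] {P : Measure Ω} [IsProbabilityMeasure P] {X : ℕ → Ω → V}

lemma hh_tendsto : Tendsto hh atTop atTop := by
  refine tendsto_atTop_mono (fun r => ?_)
    (Real.tendsto_sum_range_one_div_nat_succ_atTop.const_mul_atTop (by norm_num : (0 : ℝ) < 1 / 8))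
  rw [mul_sum]
  refine sum_le_sum fun k _ => ?_
  rw [div_mul_div_comm, mul_one]
  exact one_div_le_one_div_of_le (by positivity) (by have : (0 : ℝ) ≤ k := by positivity
                                                     linarith)

lemma rec_le (x : ℕ → V) {t : ℕ} (h : Valid x t) : rec x t ≤ t := by
  induction t with
  | zero => simp [rec, h.1]
  | succ t ih =>
    have h1 := ih ⟨h.1, fun s hs => h.2 s (by omega)⟩
    have h2 := (step_mem (h.2 t (by omega))).1
    have h3 := le_rec x t
    simp only [nbrs, mem_insert, mem_singleton] at h2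
    rcases h2 with e | e | e <;> simp only [rec, e] <;> omega

lemma not_top (hX : IsGRW P X) : ∀ᵐ ω ∂P, ¬Tendsto (fun t => (X t ω).1) atTop atTop := by
  classical
  have key := fun s : ℕ => fatou hX (fun t x => if Valid x t ∧ ∀ u, s ≤ u → u ≤ t → 1 ≤ (x u).1 then
      max 0 (pot (used x t) (x t) (rec x t)) else 0) s (1 + s)
    (fun t x => by split_ifs <;> simp)
    (fun t x y h => by
      rw [used_congr h, rec_congr h, h t le_rfl]
      refine if_congr (and_congr ⟨Valid.congr h, Valid.congr fun i hi => (h i hi).symm⟩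
        (forall₃_congr fun u _ hu => by rw [h u hu])) rfl rfl)
    (fun x => by
      split_ifs with h
      · refine max_le (by positivity) ?_
        have h1 : hh (rec x s) ≤ rec x s := by
          refine (sum_le_sum (g := fun _ => (1 : ℝ)) fun k _ => ?_).trans (by simp)
          rw [div_le_one (by positivity)]
          have : (0 : ℝ) ≤ k := by positivity
          linarith
        have h2 : (rec x s : ℝ) ≤ s := by exact_mod_cast rec_le x h.1
        have h3 : 0 ≤ (cnt (used x s) (x s).1 (rec x s) + psi (used x s) (x s)) / ((rec x s : ℝ) + 1) :=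
          div_nonneg (add_nonneg (by positivity) (psi_bd _ _).1) (by positivity)
        simp only [pot]; linarith
      · positivity)
    (fun t ht x y hv hy1 hy2 => by
      by_cases h : ∀ u, s ≤ u → u ≤ t → 1 ≤ (x u).1
      · rw [if_pos ⟨hv, h⟩]
        refine le_trans (sum_le_sum fun w hw => mul_le_mul_of_nonneg_left ?_ (step_nonneg _ _ _))
          ((drift hv.inv (h t ht le_rfl)).trans (le_max_right _ _))
        have h0 : 0 ≤ w.1 := by
          have := h t ht le_rfl
          simp only [nbrs, mem_insert, mem_singleton] at hw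
          rcases hw with e | e | e <;> simp only [e] <;> omega
        have h1 := (hh_nonneg _).trans (pot_ge (insert s(x t, w) (used x t)) h0 (max (rec x t) w.1.toNat))
        split_ifs
        · rw [used_succ, rec, used_congr (hy1 w), rec_congr (hy1 w), hy1 w t le_rfl, hy2 w]
          exact max_le h1 le_rfl
        · exact h1
      · rw [if_neg fun h' => h h'.2]
        refine le_of_eq (sum_eq_zero fun w _ => ?_)
        rw [if_neg fun h' => h fun u h1 h2 => hy1 w u h2 ▸ h'.2 u h1 (by omega), mul_zero])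
  filter_upwards [ae_all_iff.2 key, ae_valid hX] with ω h1 h2 hc
  obtain ⟨s, hs⟩ := eventually_atTop.1 (hc.eventually_ge_atTop 1)
  refine h1 s (tendsto_atTop_mono' _ ((eventually_ge_atTop s).mono fun t ht => ?_)
    (hh_tendsto.comp (f := fun t => rec (fun i => X i ω) t) ?_))
  · beta_reduce
    rw [if_pos ⟨h2 t, fun u hu _ => hs u hu⟩]
    exact (pot_ge _ (by have := hs t ht; omega) _).trans (le_max_right _ _)
  · refine tendsto_atTop.2 fun b => (hc.eventually_ge_atTop b).mono fun t ht => ?_
    have := le_rec (fun i => X i ω) t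
    omega

/-- reflection -/
def rf (v : V) : V := (-v.1, v.2)

lemma rf_rf (v : V) : rf (rf v) = v := by simp [rf]

lemma step_eq (H : Finset (Sym2 V)) (v w : V) :
    step H v w = ∑ u ∈ nbrs v, step H v u * if u = w then 1 else 0 := by
  simp only [mul_ite, mul_one, mul_zero, sum_ite_eq']
  split_ifs with h
  · rfl
  · exact of_not_not fun hc => h (step_mem hc).1

lemma step_rf (x : ℕ → V) (t : ℕ) (v w : V) : step (used (fun i => rf (x i)) t) (rf v) (rf w) = step (used x t) v w := by
  have hm : ∀ p q : V, s(rf p, rf q) ∈ used (fun i => rf (x i)) t ↔ s(p, q) ∈ used x t := fun p q => by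
    have inj : ∀ a b : V, rf a = rf b ↔ a = b := fun a b => ⟨fun h => by rw [← rf_rf a, h, rf_rf], fun h => h ▸ rfl⟩
    simp only [used, mem_image, Sym2.eq_iff, inj]
  obtain ⟨a, i⟩ := v
  obtain ⟨b, j⟩ := w
  have e1 := hm (a, i) (a + 1, i)
  have e2 := hm (a, i) (a - 1, i)
  have e3 := hm (a, i) (a, !i)
  simp only [rf, show -(a + 1) = -a - 1 by ring, show -(a - 1) = -a + 1 by ring] at e1 e2 e3
  rw [step_eq, step_eq (used x t)]
  simp only [rf]
  rw [avg, avg]
  have f1 : (-a + 1 = -b) = (a - 1 = b) := propext (by omega)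
  have f2 : (-a - 1 = -b) = (a + 1 = b) := propext (by omega)
  simp only [Prod.mk.injEq, f1, f2, neg_inj, e1, e2, e3]
  split_ifs <;> ring

lemma IsGRW.rf (hX : IsGRW P X) : IsGRW P fun t ω => rf (X t ω) := by
  refine ⟨fun t => (measurable_of_countable Yes.rf).comp (hX.1 t), hX.2.1.mono fun ω h => by simp [h, Yes.rf],
    fun x t => ?_⟩
  have : ∀ t, cyl (fun t ω => Yes.rf (X t ω)) x t = cyl X (fun i => Yes.rf (x i)) t := fun t => by
    ext ω
    exact forall₂_congr fun i _ => ⟨fun h => (rf_rf _).symm.trans (congrArg Yes.rf h), fun h => (congrArg Yes.rf h).trans (rf_rf _)⟩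
  rw [this, this, hX.2.2, step_rf]

lemma spread (hX : IsGRW P X) (v u : V) (hu : u ∈ nbrs v) :
    ∀ᵐ ω ∂P, (∃ᶠ t in atTop, X t ω = v) → ∃ᶠ t in atTop, X t ω = u := by
  classical
  have key := fun s : ℕ => fatou hX (fun t x => if ∀ j, s < j → j ≤ t → x j ≠ u then
      (3 / 2 : ℝ) ^ (((range t).filter fun j => x j = v).card + (free (used x t) v).card) else 0) s ((3 / 2) ^ (s + 3))
    (fun t x => by split_ifs <;> positivity)
    (fun t x y h => by
      rw [used_congr h, filter_congr (q := fun j => y j = v) fun j hj => by rw [h j (mem_range.1 hj).le]]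
      exact if_congr (forall₃_congr fun u _ hu => by rw [h u hu]) rfl rfl)
    (fun x => by
      split_ifs
      · refine pow_le_pow_right₀ (by norm_num) (add_le_add ((card_filter_le _ _).trans (card_range s).le)
          ((card_filter_le _ _).trans card_le_three))
      · positivity)
    (fun t ht x y hv hy1 hy2 => by
      by_cases h : ∀ j, s < j → j ≤ t → x j ≠ u
      · rw [if_pos h]
        set N := ((range t).filter fun j => x j = v).card with hN
        have e1 : ∀ w, ((range (t + 1)).filter fun j => y w j = v).card = N + if x t = v then 1 else 0 := fun w => by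
          rw [filter_congr (q := fun j => x j = v) fun j hj => by rw [hy1 w j (by simpa [Nat.lt_succ_iff] using hj)],
            range_add_one, filter_insert]
          split_ifs
          · rw [card_insert_of_notMem (by simp)]
          · rfl
        have e2 : ∀ w, used (y w) (t + 1) = insert s(x t, w) (used x t) := fun w => by
          rw [used_succ, used_congr (hy1 w), hy1 w t le_rfl, hy2 w]
        have hsub : ∀ w, free (insert s(x t, w) (used x t)) v ⊆ free (used x t) v := fun w z hz => by
          simp only [free, mem_filter, mem_insert, not_or] at hz ⊢; exact ⟨hz.1, hz.2.2⟩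
        have hone : ∑ w ∈ nbrs (x t), step (used x t) (x t) w * 1 = 1 := by
          rw [avg _ (x t).1 (x t).2]; split_ifs <;> norm_num
        simp only [e1, e2]
        by_cases hc : x t = v ∧ ¬(free (used x t) v).Nonempty
        · have e3 : free (used x t) v = ∅ := not_nonempty_iff_eq_empty.1 hc.2
          calc _ ≤ ∑ w ∈ nbrs (x t), (1 / 3 : ℝ) * if w = u then 0 else (3 / 2 : ℝ) ^ (N + 1) := by
                refine sum_le_sum fun w hw => ?_
                rw [step, hc.1, if_neg hc.2, if_pos (hc.1 ▸ hw)]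
                refine mul_le_mul_of_nonneg_left ?_ (by norm_num)
                have := hsub w
                rw [e3, subset_empty, hc.1] at this
                by_cases hwu : w = u
                · rw [if_neg fun h' => h' (t + 1) (by omega) le_rfl (by rw [hy2, hwu]), if_pos hwu]
                · rw [if_neg hwu, this, if_pos (rfl : v = v)]
                  split_ifs
                  · simp
                  · positivity
            _ = _ := by
                have h3 : (nbrs v).card = 3 := by
                  simp only [nbrs]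
                  rw [card_insert_of_notMem (by simp; omega), card_pair (by simp)]
                rw [← mul_sum, hc.1, ← add_sum_erase _ _ hu, if_pos rfl,
                  sum_congr rfl fun w hw => if_neg (ne_of_mem_erase hw), sum_const, card_erase_of_mem hu, h3, e3]
                simp; ring
        · rw [← one_mul (_ ^ _), ← hone, sum_mul]
          refine sum_le_sum fun w _ => ?_
          by_cases hw : step (used x t) (x t) w = 0
          · simp [hw]
          rw [mul_one]
          refine mul_le_mul_of_nonneg_left ?_ (step_nonneg _ _ _)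
          have h4 : N + (if x t = v then 1 else 0) + (free (insert s(x t, w) (used x t)) v).card ≤
              N + (free (used x t) v).card := by
            split_ifs with hxv
            · have h5 := (step_mem hw).2 (by rw [hxv]; exact of_not_not fun h' => hc ⟨hxv, h'⟩)
              have : (free (insert s(x t, w) (used x t)) v).card < (free (used x t) v).card :=
                card_lt_card ⟨hsub w, fun h' => by
                  have := h' (hxv ▸ h5)
                  simp [free, hxv] at this⟩
              omega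
            · have := card_le_card (hsub w); omega
          have h6 := pow_le_pow_right₀ (by norm_num : (1 : ℝ) ≤ 3 / 2) h4
          split_ifs at h6 ⊢ <;> first | exact h6 | positivity
      · rw [if_neg h]
        refine le_of_eq (sum_eq_zero fun w _ => ?_)
        rw [if_neg fun h' => h fun j h1 h2 => hy1 w j h2 ▸ h' j h1 (by omega), mul_zero])
  filter_upwards [ae_all_iff.2 key] with ω h1 hv
  by_contra hc
  obtain ⟨s, hs⟩ := eventually_atTop.1 (not_frequently.1 hc)
  have h2 : Tendsto (fun t => ((range t).filter fun j => X j ω = v).card) atTop atTop := by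
    have hinf : (setOf fun j => X j ω = v).Infinite := Nat.frequently_atTop_iff_infinite.1 hv
    refine tendsto_atTop.2 fun b => ?_
    obtain ⟨T, hT1, hT2⟩ := hinf.exists_subset_card_eq b
    refine (eventually_gt_atTop (T.sup id)).mono fun t ht => hT2 ▸ card_le_card fun j hj => ?_
    exact mem_filter.2 ⟨mem_range.2 ((le_sup (f := id) hj).trans_lt ht), hT1 hj⟩
  refine h1 s (tendsto_atTop_mono (fun t => ?_)
    ((tendsto_pow_atTop_atTop_of_one_lt (by norm_num : (1 : ℝ) < 3 / 2)).comp h2))
  rw [if_pos fun j h1 _ => hs j h1.le]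
  exact pow_le_pow_right₀ (by norm_num) (Nat.le_add_right _ _)

lemma column (a : ℕ → ℤ) (h : ∀ t, |a (t + 1) - a t| ≤ 1) (h1 : ¬Tendsto a atTop atTop)
    (h2 : ¬Tendsto (fun t => -a t) atTop atTop) : ∃ c, ∃ᶠ t in atTop, a t = c := by
  by_contra hc
  push Not at hc
  have key : ∀ b : ℕ → ℤ, (∀ t, |b (t + 1) - b t| ≤ 1) → (∀ c, ∀ᶠ t in atTop, b t ≠ c) →
      ∀ t0, (∀ t ≥ t0, b t ≠ 0) → 0 < b t0 → Tendsto b atTop atTop := by
    intro b hb hb' t0 h0 hp
    have : ∀ t ≥ t0, 0 < b t := fun t ht => by
      induction t, ht using Nat.le_induction with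
      | base => exact hp
      | succ t ht ih => have := h0 (t + 1) (by omega); have := abs_le.1 (hb t); omega
    refine tendsto_atTop.2 fun m => ?_
    filter_upwards [eventually_ge_atTop t0, (eventually_all_finset (Ico 0 m)).2 fun c _ => hb' c] with t h3 h4
    by_contra h5
    exact h4 (b t) (mem_Ico.2 ⟨(this t h3).le, by omega⟩) rfl
  obtain ⟨t0, h0⟩ := eventually_atTop.1 (hc 0)
  rcases lt_or_gt_of_ne (h0 t0 le_rfl) with h3 | h3
  · exact h2 (key _ (fun t => by have := abs_le.1 (h t); rw [abs_le]; omega)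
      (fun c => (hc (-c)).mono fun t ht => by omega) t0 (fun t ht => by have := h0 t ht; omega) (by omega))
  · exact h1 (key a h hc t0 h0 h3)

end final

theorem result (Ω : Type) [MeasurableSpace Ω] (P : Measure Ω) [IsProbabilityMeasure P] (X : ℕ → Ω → V)
    (hX : IsGRW P X) : ∀ᵐ ω ∂P, ∀ v : V, ∃ᶠ t in atTop, X t ω = v := by
  have h1 : ∀ᵐ ω ∂P, ∀ v u : V, u ∈ nbrs v → (∃ᶠ t in atTop, X t ω = v) → ∃ᶠ t in atTop, X t ω = u :=
    ae_all_iff.2 fun v => ae_all_iff.2 fun u => by
      by_cases hu : u ∈ nbrs v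
      · exact (spread hX v u hu).mono fun ω h _ => h
      · exact ae_of_all _ fun ω h => (hu h).elim
  filter_upwards [h1, not_top hX, not_top hX.rf, ae_valid hX] with ω h1 h2 h3 h4
  obtain ⟨c, hc⟩ := column (fun t => (X t ω).1) (fun t => by
    have := (step_mem ((h4 (t + 1)).2 t (by omega))).1
    simp only [nbrs, mem_insert, mem_singleton] at this
    rcases this with e | e | e <;> simp [e]) h2 h3
  have hU : ∀ n i, (∃ᶠ t in atTop, X t ω = (n, i)) → ∀ j, ∃ᶠ t in atTop, X t ω = (n, j) := fun n i h j => by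
    by_cases e : j = i
    · exact e ▸ h
    · exact h1 _ _ (by cases i <;> cases j <;> simp_all [nbrs]) h
  have h0 : ∃ᶠ t in atTop, X t ω = (c, false) := by
    have : (∃ᶠ t in atTop, X t ω = (c, false)) ∨ ∃ᶠ t in atTop, X t ω = (c, true) :=
      frequently_or_distrib.1 (hc.mono fun t ht => by
        rcases e : X t ω with ⟨a, _ | _⟩ <;> simp_all)
    exact this.elim id fun h => hU _ _ h _
  rintro ⟨n, j⟩
  refine hU n false ?_ j
  induction n using Int.inductionOn' (b := c) with
  | zero => exact h0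
  | succ k _ ih => exact h1 _ _ (by simp [nbrs]) ih
  | pred k _ ih => exact h1 _ _ (by simp [nbrs]) ih

end Pool.Agent.Results.MP_1d885b_pr.Yes
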